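import Pool.Agent.P.MP_8da836_an.Main

namespace Pool.Agent.Results.MP_8da836_an.AffineBaireOneBall

open Filter Topology

/-- `f : X → E` is affine: `f (t x + (1 - t) y) = t f x + (1 - t) f y` for `x, y ∈ X` and
`t ∈ [0, 1]` (the point `t x + (1 - t) y` of `X` is called `z`). -/
def IsAffine {V E : Type*} [AddCommGroup V] [Module ℝ V] [AddCommGroup E] [Module ℝ E]
    {X : Set V} (f : X → E) : Prop :=
  ∀ (x y z : X) (t : ℝ), 0 ≤ t → t ≤ 1 → (z : V) = t • (x : V) + (1 - t) • (y : V) →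
    f z = t • f x + (1 - t) • f y

/-- `C₁(X, L)`: maps `X → L` that are pointwise limits of a sequence of continuous maps
`X → L`. -/
def C1 {V E : Type*} [TopologicalSpace V] [TopologicalSpace E] (X : Set V) (L : Set E) :
    Set (X → E) :=
  {f | (∀ x, f x ∈ L) ∧ ∃ u : ℕ → X → E, (∀ n, Continuous (u n)) ∧ (∀ n x, u n x ∈ L) ∧
    ∀ x, Tendsto (fun n => u n x) atTop (𝓝 (f x))}

/-- `A₁(X, L)`: maps `X → L` that are pointwise limits of a sequence of continuous affine maps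
`X → L`. -/
def A1 {V E : Type*} [AddCommGroup V] [Module ℝ V] [TopologicalSpace V] [AddCommGroup E]
    [Module ℝ E] [TopologicalSpace E] (X : Set V) (L : Set E) : Set (X → E) :=
  {f | (∀ x, f x ∈ L) ∧ ∃ u : ℕ → X → E, (∀ n, Continuous (u n)) ∧ (∀ n, IsAffine (u n)) ∧
    (∀ n x, u n x ∈ L) ∧ ∀ x, Tendsto (fun n => u n x) atTop (𝓝 (f x))}

/-- The approximation property: on every compact set the identity is uniformly approximated by
bounded finite-rank operators (no bound on their norms is required). -/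
def HasAP (𝕜 E : Type*) [RCLike 𝕜] [NormedAddCommGroup E] [NormedSpace 𝕜 E] : Prop :=
  ∀ K : Set E, IsCompact K → ∀ ε : ℝ, 0 < ε → ∃ T : E →L[𝕜] E,
    FiniteDimensional 𝕜 (LinearMap.range (T : E →ₗ[𝕜] E)) ∧ ∀ x ∈ K, ‖T x - x‖ < ε

theorem result
    {V : Type*} [AddCommGroup V] [Module ℝ V] [TopologicalSpace V] [IsTopologicalAddGroup V]
    [ContinuousSMul ℝ V] [LocallyConvexSpace ℝ V] [T2Space V]
    (X : Set V) (hXc : IsCompact X) (hXv : Convex ℝ X)
    (𝕜 : Type*) [RCLike 𝕜] {E : Type*} [NormedAddCommGroup E] [NormedSpace ℝ E]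
    [NormedSpace 𝕜 E] [IsScalarTower ℝ 𝕜 E] [CompleteSpace E] (hE : HasAP 𝕜 E)
    (f : X → E) (hf : IsAffine f) (hf1 : f ∈ C1 X (Metric.closedBall (0 : E) 1)) :
    f ∈ A1 X (Metric.closedBall (0 : E) 1) := by
  obtain ⟨hfL, u, hu, huL, hlim⟩ := hf1
  have hE' : ∀ C : Set E, IsCompact C → ∀ ε : ℝ, 0 < ε → ∃ T : E →L[ℝ] E,
      FiniteDimensional ℝ (LinearMap.range (T : E →ₗ[ℝ] E)) ∧ ∀ y ∈ C, ‖T y - y‖ < ε := by
    intro C hC ε hε
    obtain ⟨T, hT, hTC⟩ := hE C hC ε hε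
    refine ⟨T.restrictScalars ℝ, ?_, hTC⟩
    have h1 : FiniteDimensional ℝ (LinearMap.range (T : E →ₗ[𝕜] E)) :=
      Module.Finite.trans 𝕜 _
    exact h1
  obtain ⟨g, h1, h2, h3, h4⟩ := Pool.Agent.P.MP_8da836_an.main hXc hXv hE' hf hu
    (fun n x => mem_closedBall_zero_iff.1 (huL n x)) hlim
  exact ⟨hfL, g, h1, h2, fun n x => mem_closedBall_zero_iff.2 (h3 n x), h4⟩

end Pool.Agent.Results.MP_8da836_an.AffineBaireOneBall
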